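import Pool.Agent.H60.BPc

namespace Pool.Agent.Results.MP_7debfd_pr.No
open MeasureTheory Filter Topology H60.BP

theorem result (a : ℝ) (ha : 2 < a) :
    (a - 0) ^ 2 > 2 * (a + 0) ∧ ∀ ε : ℝ, 0 < ε → ∀ t : ℕ → ℕ,
      ¬ Tendsto (fun n : ℕ => (volume : Measure (Om n)).real {ω | ε ≤ overlap a 0 (t n) ω})
        atTop (𝓝 1) := by
  refine ⟨by nlinarith, fun ε hε t h => ?_⟩
  obtain ⟨c, hc, hev⟩ := bad_eventually a ε (by linarith) hε
  have h2 : Tendsto (fun N : ℕ => 2 * N) atTop atTop :=
    tendsto_atTop_mono (fun N => by simp only [id]; omega) tendsto_id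
  have h3 := (h.comp h2).eventually (lt_mem_nhds (show 1 - c < 1 by linarith))
  obtain ⟨N, h4, h5⟩ := (hev.and h3).exists
  have h6 := h4 (t (2 * N))
  have hm : Measurable fun ω : Om (2 * N) => overlap a 0 (t (2 * N)) ω := by
    refine (Measurable.const_mul (Finset.measurable_sum _ fun i _ => Measurable.mul
      (meas_est (meas_fBP a 0) (Adj a 0) (fun i k => ?_) _ i) (meas_sgn _)) _).abs
    exact (MeasurableSet.const _).inter (measurableSet_lt (meas_co _) (Measurable.ite
      (measurableSet_eq_fun (meas_sgn _) (meas_sgn _)) measurable_const measurable_const))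
  have h7 := measureReal_add_measureReal_compl (μ := volume)
    (measurableSet_lt hm (measurable_const (a := ε)))
  have h8 : {ω : Om (2 * N) | overlap a 0 (t (2 * N)) ω < ε}ᶜ =
      {ω | ε ≤ overlap a 0 (t (2 * N)) ω} := by ext ω; simp
  rw [h8, probReal_univ] at h7
  simp only [Function.comp] at h5
  linarith

end Pool.Agent.Results.MP_7debfd_pr.No
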